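import Mathlib

namespace Pool.Agent.Results.MP_7d4bc7_co.Counter

/-- A connectivity code for `H`: a family of spanning subgraphs of `H` whose pairwise
symmetric differences are connected on the full vertex set. -/
def IsCode {n : ℕ} (H : SimpleGraph (Fin n)) (𝒢 : Finset (SimpleGraph (Fin n))) : Prop :=
  (∀ G ∈ 𝒢, G ≤ H) ∧ ∀ G₁ ∈ 𝒢, ∀ G₂ ∈ 𝒢, G₁ ≠ G₂ → (symmDiff G₁ G₂).Connected

open Classical in
/-- Every eigenpair `(μ, x)` of the adjacency matrix is either the trivial one (`μ = d` with a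
constant eigenvector, so `d` is a simple eigenvalue) or has `|μ| ≤ 2 √(d - 1)`. -/
def Ramanujan {n : ℕ} (H : SimpleGraph (Fin n)) (d : ℕ) : Prop :=
  ∀ (μ : ℝ) (x : Fin n → ℝ), x ≠ 0 → (∀ i, ∑ j, (if H.Adj i j then x j else 0) = μ * x i) →
    (μ = d ∧ ∃ c, ∀ i, x i = c) ∨ |μ| ≤ 2 * Real.sqrt ((d : ℝ) - 1)

lemma bound {n c : ℕ} (H : SimpleGraph (Fin n)) (s : Fin n → Bool) (u v : Fin c → Fin n)
    (a b : Fin n) (hab : s a ≠ s b)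
    (hcut : ∀ x y, H.Adj x y → s x ≠ s y → ∃ k, (x = u k ∧ y = v k) ∨ (y = u k ∧ x = v k))
    (𝒢 : Finset (SimpleGraph (Fin n))) (h : IsCode H 𝒢) : 𝒢.card ≤ 2 ^ c := by
  classical
  have key := Finset.card_le_card_of_injOn (s := 𝒢) (t := (Finset.univ : Finset (Fin c → Prop)))
    (fun G k => G.Adj (u k) (v k)) (fun _ _ => Finset.mem_coe.2 (Finset.mem_univ _)) ?_
  · simpa using key
  intro G1 h1 G2 h2 he
  by_contra hne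
  have h1' : G1 ∈ 𝒢 := h1
  have h2' : G2 ∈ 𝒢 := h2
  obtain ⟨w⟩ := (h.2 G1 h1' G2 h2' hne).preconnected a b
  have all : ∀ (x y : Fin n) (_ : (symmDiff G1 G2).Walk x y), s x = s y := by
    intro x y w
    induction w with
    | nil => rfl
    | cons hadj _ ih =>
      rw [← ih]
      by_contra hs
      simp only [symmDiff_def, SimpleGraph.sup_adj, SimpleGraph.sdiff_adj] at hadj
      have hH := hadj.elim (fun h' => h.1 _ h1' h'.1) (fun h' => h.1 _ h2' h'.1)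
      obtain ⟨k, hk⟩ := hcut _ _ hH hs
      have hk2 : G1.Adj (u k) (v k) = G2.Adj (u k) (v k) := congrFun he k
      rcases hk with ⟨rfl, rfl⟩ | ⟨rfl, rfl⟩
      · rw [hk2] at hadj
        tauto
      · rw [G1.adj_comm, G2.adj_comm, hk2] at hadj
        tauto
  exact hab (all a b w)

lemma rootA (μ : ℝ) (hp : (μ + 1) * (μ - 1) * (μ ^ 2 - μ - 8) = 0) :
    |μ| ≤ 2 * Real.sqrt (((4 : ℕ) : ℝ) - 1) := by
  have hq : (173 / 100 : ℝ) ≤ Real.sqrt (((4 : ℕ) : ℝ) - 1) := by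
    apply Real.le_sqrt_of_sq_le
    norm_num
  have : |μ| ≤ 34 / 10 := by
    clear hq
    rw [abs_le]
    rcases mul_eq_zero.1 hp with h1 | h1
    · rcases mul_eq_zero.1 h1 with h2 | h2 <;> constructor <;> linarith
    · clear hp
      constructor <;> nlinarith
  exact le_trans this (le_trans (by norm_num) (mul_le_mul_of_nonneg_left hq (by norm_num)))

lemma rootB (μ : ℝ) (hp : (μ + 1) * (μ - 1) * (μ + 3) * (μ ^ 2 - 2 * μ - 7) = 0) :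
    |μ| ≤ 2 * Real.sqrt (((5 : ℕ) : ℝ) - 1) := by
  have hq : (2 : ℝ) ≤ Real.sqrt (((5 : ℕ) : ℝ) - 1) := by
    apply Real.le_sqrt_of_sq_le
    norm_num
  have : |μ| ≤ 4 := by
    clear hq
    rw [abs_le]
    rcases mul_eq_zero.1 hp with h1 | h1
    · rcases mul_eq_zero.1 h1 with h2 | h2
      · rcases mul_eq_zero.1 h2 with h3 | h3 <;> constructor <;> linarith
      · constructor <;> linarith
    · clear hp
      constructor <;> nlinarith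
  linarith

def adjA (i j : Fin 10) : Bool :=
  decide ((i.val, j.val) ∈ ([(0, 1), (0, 2), (0, 3), (0, 4), (1, 2), (1, 3), (1, 4), (2, 3), (2, 4), (5, 6), (5, 7), (5, 8), (5, 9), (6, 7), (6, 8), (6, 9), (7, 8), (7, 9), (3, 8), (4, 9)] : List (ℕ × ℕ)) ∨
    (j.val, i.val) ∈ ([(0, 1), (0, 2), (0, 3), (0, 4), (1, 2), (1, 3), (1, 4), (2, 3), (2, 4), (5, 6), (5, 7), (5, 8), (5, 9), (6, 7), (6, 8), (6, 9), (7, 8), (7, 9), (3, 8), (4, 9)] : List (ℕ × ℕ)))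

def HA : SimpleGraph (Fin 10) where
  Adj i j := adjA i j = true
  symm := ⟨by decide +kernel⟩
  loopless := ⟨by decide +kernel⟩

instance : DecidableRel HA.Adj := fun i j => inferInstanceAs (Decidable (adjA i j = true))

open Classical in
lemma redA (x : Fin 10 → ℝ) (i : Fin 10) :
    (∑ j, @ite ℝ (HA.Adj i j) (Classical.propDecidable _) (x j) 0) =
      ∑ j ∈ Finset.univ.filter (fun j => adjA i j = true), x j := by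
  rw [Finset.sum_filter]
  exact Finset.sum_congr rfl (fun j _ => by congr)

lemma regA : ∀ v, (HA.neighborSet v).ncard = 4 := by
  intro v
  rw [← SimpleGraph.coe_neighborFinset, Set.ncard_coe_finset]
  revert v
  decide +kernel

lemma ramA : Ramanujan HA 4 := by
  intro μ x hx h
  have e0 := h 0
  rw [redA, show Finset.univ.filter (fun j => adjA 0 j = true) = {1, 2, 3, 4} by decide +kernel,
    Finset.sum_insert (by decide), Finset.sum_insert (by decide), Finset.sum_insert (by decide), Finset.sum_singleton] at e0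
  have e1 := h 1
  rw [redA, show Finset.univ.filter (fun j => adjA 1 j = true) = {0, 2, 3, 4} by decide +kernel,
    Finset.sum_insert (by decide), Finset.sum_insert (by decide), Finset.sum_insert (by decide), Finset.sum_singleton] at e1
  have e2 := h 2
  rw [redA, show Finset.univ.filter (fun j => adjA 2 j = true) = {0, 1, 3, 4} by decide +kernel,
    Finset.sum_insert (by decide), Finset.sum_insert (by decide), Finset.sum_insert (by decide), Finset.sum_singleton] at e2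
  have e3 := h 3
  rw [redA, show Finset.univ.filter (fun j => adjA 3 j = true) = {0, 1, 2, 8} by decide +kernel,
    Finset.sum_insert (by decide), Finset.sum_insert (by decide), Finset.sum_insert (by decide), Finset.sum_singleton] at e3
  have e4 := h 4
  rw [redA, show Finset.univ.filter (fun j => adjA 4 j = true) = {0, 1, 2, 9} by decide +kernel,
    Finset.sum_insert (by decide), Finset.sum_insert (by decide), Finset.sum_insert (by decide), Finset.sum_singleton] at e4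
  have e5 := h 5
  rw [redA, show Finset.univ.filter (fun j => adjA 5 j = true) = {6, 7, 8, 9} by decide +kernel,
    Finset.sum_insert (by decide), Finset.sum_insert (by decide), Finset.sum_insert (by decide), Finset.sum_singleton] at e5
  have e6 := h 6
  rw [redA, show Finset.univ.filter (fun j => adjA 6 j = true) = {5, 7, 8, 9} by decide +kernel,
    Finset.sum_insert (by decide), Finset.sum_insert (by decide), Finset.sum_insert (by decide), Finset.sum_singleton] at e6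
  have e7 := h 7
  rw [redA, show Finset.univ.filter (fun j => adjA 7 j = true) = {5, 6, 8, 9} by decide +kernel,
    Finset.sum_insert (by decide), Finset.sum_insert (by decide), Finset.sum_insert (by decide), Finset.sum_singleton] at e7
  have e8 := h 8
  rw [redA, show Finset.univ.filter (fun j => adjA 8 j = true) = {3, 5, 6, 7} by decide +kernel,
    Finset.sum_insert (by decide), Finset.sum_insert (by decide), Finset.sum_insert (by decide), Finset.sum_singleton] at e8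
  have e9 := h 9
  rw [redA, show Finset.univ.filter (fun j => adjA 9 j = true) = {4, 5, 6, 7} by decide +kernel,
    Finset.sum_insert (by decide), Finset.sum_insert (by decide), Finset.sum_insert (by decide), Finset.sum_singleton] at e9
  have k0 : (μ + 1) * (μ - 1) * (μ ^ 2 - μ - 8) * x 0 = 6 * (x 0 + x 1 + x 2 + x 3 + x 4 + x 5 + x 6 + x 7 + x 8 + x 9) := by
    linear_combination (-((7) * μ ^ 0 + (-5) * μ ^ 1 + (-1) * μ ^ 2 + (1) * μ ^ 3)) * e0 + (-((-1) * μ ^ 0 + (2) * μ ^ 1 + (1) * μ ^ 2)) * e1 + (-((-1) * μ ^ 0 + (2) * μ ^ 1 + (1) * μ ^ 2)) * e2 + (-((1) * μ ^ 1 + (1) * μ ^ 2)) * e3 + (-((1) * μ ^ 1 + (1) * μ ^ 2)) * e4 + (-((2) * μ ^ 0)) * e5 + (-((2) * μ ^ 0)) * e6 + (-((2) * μ ^ 0)) * e7 + (-((1) * μ ^ 0 + (1) * μ ^ 1)) * e8 + (-((1) * μ ^ 0 + (1) * μ ^ 1)) * e9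
  have k1 : (μ + 1) * (μ - 1) * (μ ^ 2 - μ - 8) * x 1 = 6 * (x 0 + x 1 + x 2 + x 3 + x 4 + x 5 + x 6 + x 7 + x 8 + x 9) := by
    linear_combination (-((-1) * μ ^ 0 + (2) * μ ^ 1 + (1) * μ ^ 2)) * e0 + (-((7) * μ ^ 0 + (-5) * μ ^ 1 + (-1) * μ ^ 2 + (1) * μ ^ 3)) * e1 + (-((-1) * μ ^ 0 + (2) * μ ^ 1 + (1) * μ ^ 2)) * e2 + (-((1) * μ ^ 1 + (1) * μ ^ 2)) * e3 + (-((1) * μ ^ 1 + (1) * μ ^ 2)) * e4 + (-((2) * μ ^ 0)) * e5 + (-((2) * μ ^ 0)) * e6 + (-((2) * μ ^ 0)) * e7 + (-((1) * μ ^ 0 + (1) * μ ^ 1)) * e8 + (-((1) * μ ^ 0 + (1) * μ ^ 1)) * e9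
  have k2 : (μ + 1) * (μ - 1) * (μ ^ 2 - μ - 8) * x 2 = 6 * (x 0 + x 1 + x 2 + x 3 + x 4 + x 5 + x 6 + x 7 + x 8 + x 9) := by
    linear_combination (-((-1) * μ ^ 0 + (2) * μ ^ 1 + (1) * μ ^ 2)) * e0 + (-((-1) * μ ^ 0 + (2) * μ ^ 1 + (1) * μ ^ 2)) * e1 + (-((7) * μ ^ 0 + (-5) * μ ^ 1 + (-1) * μ ^ 2 + (1) * μ ^ 3)) * e2 + (-((1) * μ ^ 1 + (1) * μ ^ 2)) * e3 + (-((1) * μ ^ 1 + (1) * μ ^ 2)) * e4 + (-((2) * μ ^ 0)) * e5 + (-((2) * μ ^ 0)) * e6 + (-((2) * μ ^ 0)) * e7 + (-((1) * μ ^ 0 + (1) * μ ^ 1)) * e8 + (-((1) * μ ^ 0 + (1) * μ ^ 1)) * e9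
  have k3 : (μ + 1) * (μ - 1) * (μ ^ 2 - μ - 8) * x 3 = 6 * (x 0 + x 1 + x 2 + x 3 + x 4 + x 5 + x 6 + x 7 + x 8 + x 9) := by
    linear_combination (-((1) * μ ^ 1 + (1) * μ ^ 2)) * e0 + (-((1) * μ ^ 1 + (1) * μ ^ 2)) * e1 + (-((1) * μ ^ 1 + (1) * μ ^ 2)) * e2 + (-((3) * μ ^ 0 + (-5) * μ ^ 1 + (-1) * μ ^ 2 + (1) * μ ^ 3)) * e3 + (-((3) * μ ^ 0 + (3) * μ ^ 1)) * e4 + (-((1) * μ ^ 0 + (1) * μ ^ 1)) * e5 + (-((1) * μ ^ 0 + (1) * μ ^ 1)) * e6 + (-((1) * μ ^ 0 + (1) * μ ^ 1)) * e7 + (-((-2) * μ ^ 0 + (-1) * μ ^ 1 + (1) * μ ^ 2)) * e8 + (-((6) * μ ^ 0)) * e9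
  have k4 : (μ + 1) * (μ - 1) * (μ ^ 2 - μ - 8) * x 4 = 6 * (x 0 + x 1 + x 2 + x 3 + x 4 + x 5 + x 6 + x 7 + x 8 + x 9) := by
    linear_combination (-((1) * μ ^ 1 + (1) * μ ^ 2)) * e0 + (-((1) * μ ^ 1 + (1) * μ ^ 2)) * e1 + (-((1) * μ ^ 1 + (1) * μ ^ 2)) * e2 + (-((3) * μ ^ 0 + (3) * μ ^ 1)) * e3 + (-((3) * μ ^ 0 + (-5) * μ ^ 1 + (-1) * μ ^ 2 + (1) * μ ^ 3)) * e4 + (-((1) * μ ^ 0 + (1) * μ ^ 1)) * e5 + (-((1) * μ ^ 0 + (1) * μ ^ 1)) * e6 + (-((1) * μ ^ 0 + (1) * μ ^ 1)) * e7 + (-((6) * μ ^ 0)) * e8 + (-((-2) * μ ^ 0 + (-1) * μ ^ 1 + (1) * μ ^ 2)) * e9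
  have k5 : (μ + 1) * (μ - 1) * (μ ^ 2 - μ - 8) * x 5 = 6 * (x 0 + x 1 + x 2 + x 3 + x 4 + x 5 + x 6 + x 7 + x 8 + x 9) := by
    linear_combination (-((2) * μ ^ 0)) * e0 + (-((2) * μ ^ 0)) * e1 + (-((2) * μ ^ 0)) * e2 + (-((1) * μ ^ 0 + (1) * μ ^ 1)) * e3 + (-((1) * μ ^ 0 + (1) * μ ^ 1)) * e4 + (-((7) * μ ^ 0 + (-5) * μ ^ 1 + (-1) * μ ^ 2 + (1) * μ ^ 3)) * e5 + (-((-1) * μ ^ 0 + (2) * μ ^ 1 + (1) * μ ^ 2)) * e6 + (-((-1) * μ ^ 0 + (2) * μ ^ 1 + (1) * μ ^ 2)) * e7 + (-((1) * μ ^ 1 + (1) * μ ^ 2)) * e8 + (-((1) * μ ^ 1 + (1) * μ ^ 2)) * e9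
  have k6 : (μ + 1) * (μ - 1) * (μ ^ 2 - μ - 8) * x 6 = 6 * (x 0 + x 1 + x 2 + x 3 + x 4 + x 5 + x 6 + x 7 + x 8 + x 9) := by
    linear_combination (-((2) * μ ^ 0)) * e0 + (-((2) * μ ^ 0)) * e1 + (-((2) * μ ^ 0)) * e2 + (-((1) * μ ^ 0 + (1) * μ ^ 1)) * e3 + (-((1) * μ ^ 0 + (1) * μ ^ 1)) * e4 + (-((-1) * μ ^ 0 + (2) * μ ^ 1 + (1) * μ ^ 2)) * e5 + (-((7) * μ ^ 0 + (-5) * μ ^ 1 + (-1) * μ ^ 2 + (1) * μ ^ 3)) * e6 + (-((-1) * μ ^ 0 + (2) * μ ^ 1 + (1) * μ ^ 2)) * e7 + (-((1) * μ ^ 1 + (1) * μ ^ 2)) * e8 + (-((1) * μ ^ 1 + (1) * μ ^ 2)) * e9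
  have k7 : (μ + 1) * (μ - 1) * (μ ^ 2 - μ - 8) * x 7 = 6 * (x 0 + x 1 + x 2 + x 3 + x 4 + x 5 + x 6 + x 7 + x 8 + x 9) := by
    linear_combination (-((2) * μ ^ 0)) * e0 + (-((2) * μ ^ 0)) * e1 + (-((2) * μ ^ 0)) * e2 + (-((1) * μ ^ 0 + (1) * μ ^ 1)) * e3 + (-((1) * μ ^ 0 + (1) * μ ^ 1)) * e4 + (-((-1) * μ ^ 0 + (2) * μ ^ 1 + (1) * μ ^ 2)) * e5 + (-((-1) * μ ^ 0 + (2) * μ ^ 1 + (1) * μ ^ 2)) * e6 + (-((7) * μ ^ 0 + (-5) * μ ^ 1 + (-1) * μ ^ 2 + (1) * μ ^ 3)) * e7 + (-((1) * μ ^ 1 + (1) * μ ^ 2)) * e8 + (-((1) * μ ^ 1 + (1) * μ ^ 2)) * e9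
  have k8 : (μ + 1) * (μ - 1) * (μ ^ 2 - μ - 8) * x 8 = 6 * (x 0 + x 1 + x 2 + x 3 + x 4 + x 5 + x 6 + x 7 + x 8 + x 9) := by
    linear_combination (-((1) * μ ^ 0 + (1) * μ ^ 1)) * e0 + (-((1) * μ ^ 0 + (1) * μ ^ 1)) * e1 + (-((1) * μ ^ 0 + (1) * μ ^ 1)) * e2 + (-((-2) * μ ^ 0 + (-1) * μ ^ 1 + (1) * μ ^ 2)) * e3 + (-((6) * μ ^ 0)) * e4 + (-((1) * μ ^ 1 + (1) * μ ^ 2)) * e5 + (-((1) * μ ^ 1 + (1) * μ ^ 2)) * e6 + (-((1) * μ ^ 1 + (1) * μ ^ 2)) * e7 + (-((3) * μ ^ 0 + (-5) * μ ^ 1 + (-1) * μ ^ 2 + (1) * μ ^ 3)) * e8 + (-((3) * μ ^ 0 + (3) * μ ^ 1)) * e9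
  have k9 : (μ + 1) * (μ - 1) * (μ ^ 2 - μ - 8) * x 9 = 6 * (x 0 + x 1 + x 2 + x 3 + x 4 + x 5 + x 6 + x 7 + x 8 + x 9) := by
    linear_combination (-((1) * μ ^ 0 + (1) * μ ^ 1)) * e0 + (-((1) * μ ^ 0 + (1) * μ ^ 1)) * e1 + (-((1) * μ ^ 0 + (1) * μ ^ 1)) * e2 + (-((6) * μ ^ 0)) * e3 + (-((-2) * μ ^ 0 + (-1) * μ ^ 1 + (1) * μ ^ 2)) * e4 + (-((1) * μ ^ 1 + (1) * μ ^ 2)) * e5 + (-((1) * μ ^ 1 + (1) * μ ^ 2)) * e6 + (-((1) * μ ^ 1 + (1) * μ ^ 2)) * e7 + (-((3) * μ ^ 0 + (3) * μ ^ 1)) * e8 + (-((3) * μ ^ 0 + (-5) * μ ^ 1 + (-1) * μ ^ 2 + (1) * μ ^ 3)) * e9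
  have k : ∀ i, (μ + 1) * (μ - 1) * (μ ^ 2 - μ - 8) * x i = 6 * (x 0 + x 1 + x 2 + x 3 + x 4 + x 5 + x 6 + x 7 + x 8 + x 9) := by
    intro i
    fin_cases i
    exacts [k0, k1, k2, k3, k4, k5, k6, k7, k8, k9]
  have hs : (μ - 4) * (x 0 + x 1 + x 2 + x 3 + x 4 + x 5 + x 6 + x 7 + x 8 + x 9) = 0 := by
    linear_combination (-1) * e0 + (-1) * e1 + (-1) * e2 + (-1) * e3 + (-1) * e4 + (-1) * e5 + (-1) * e6 + (-1) * e7 + (-1) * e8 + (-1) * e9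
  rcases mul_eq_zero.1 hs with h0 | h0
  · left
    have hm : μ = 4 := by linarith
    refine ⟨by rw [hm]; norm_num, x 0, fun i => ?_⟩
    have a := k i
    have b := k 0
    rw [hm] at a b
    linarith
  · right
    obtain ⟨i, hi⟩ := Function.ne_iff.1 hx
    have a := k i
    rw [h0, mul_zero] at a
    have hp := (mul_eq_zero.1 a).resolve_right hi
    exact rootA μ hp

lemma codeA (𝒢 : Finset (SimpleGraph (Fin 10))) (h : IsCode HA 𝒢) : 𝒢.card ≤ 4 :=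
  bound HA (fun i => decide (i.val < 5)) ![3, 4] ![8, 9] 0 9 (by decide)
    (by decide +kernel) 𝒢 h

def adjB (i j : Fin 12) : Bool :=
  decide ((i.val, j.val) ∈ ([(0, 1), (0, 2), (0, 3), (0, 4), (0, 5), (1, 2), (1, 3), (1, 4), (1, 5), (2, 4), (2, 5), (3, 4), (3, 5), (6, 7), (6, 8), (6, 9), (6, 10), (6, 11), (7, 8), (7, 9), (7, 10), (7, 11), (8, 10), (8, 11), (9, 10), (9, 11), (2, 8), (3, 9), (4, 10), (5, 11)] : List (ℕ × ℕ)) ∨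
    (j.val, i.val) ∈ ([(0, 1), (0, 2), (0, 3), (0, 4), (0, 5), (1, 2), (1, 3), (1, 4), (1, 5), (2, 4), (2, 5), (3, 4), (3, 5), (6, 7), (6, 8), (6, 9), (6, 10), (6, 11), (7, 8), (7, 9), (7, 10), (7, 11), (8, 10), (8, 11), (9, 10), (9, 11), (2, 8), (3, 9), (4, 10), (5, 11)] : List (ℕ × ℕ)))

def HB : SimpleGraph (Fin 12) where
  Adj i j := adjB i j = true
  symm := ⟨by decide +kernel⟩
  loopless := ⟨by decide +kernel⟩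

instance : DecidableRel HB.Adj := fun i j => inferInstanceAs (Decidable (adjB i j = true))

open Classical in
lemma redB (x : Fin 12 → ℝ) (i : Fin 12) :
    (∑ j, @ite ℝ (HB.Adj i j) (Classical.propDecidable _) (x j) 0) =
      ∑ j ∈ Finset.univ.filter (fun j => adjB i j = true), x j := by
  rw [Finset.sum_filter]
  exact Finset.sum_congr rfl (fun j _ => by congr)

lemma regB : ∀ v, (HB.neighborSet v).ncard = 5 := by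
  intro v
  rw [← SimpleGraph.coe_neighborFinset, Set.ncard_coe_finset]
  revert v
  decide +kernel

lemma ramB : Ramanujan HB 5 := by
  intro μ x hx h
  have e0 := h 0
  rw [redB, show Finset.univ.filter (fun j => adjB 0 j = true) = {1, 2, 3, 4, 5} by decide +kernel,
    Finset.sum_insert (by decide), Finset.sum_insert (by decide), Finset.sum_insert (by decide), Finset.sum_insert (by decide), Finset.sum_singleton] at e0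
  have e1 := h 1
  rw [redB, show Finset.univ.filter (fun j => adjB 1 j = true) = {0, 2, 3, 4, 5} by decide +kernel,
    Finset.sum_insert (by decide), Finset.sum_insert (by decide), Finset.sum_insert (by decide), Finset.sum_insert (by decide), Finset.sum_singleton] at e1
  have e2 := h 2
  rw [redB, show Finset.univ.filter (fun j => adjB 2 j = true) = {0, 1, 4, 5, 8} by decide +kernel,
    Finset.sum_insert (by decide), Finset.sum_insert (by decide), Finset.sum_insert (by decide), Finset.sum_insert (by decide), Finset.sum_singleton] at e2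
  have e3 := h 3
  rw [redB, show Finset.univ.filter (fun j => adjB 3 j = true) = {0, 1, 4, 5, 9} by decide +kernel,
    Finset.sum_insert (by decide), Finset.sum_insert (by decide), Finset.sum_insert (by decide), Finset.sum_insert (by decide), Finset.sum_singleton] at e3
  have e4 := h 4
  rw [redB, show Finset.univ.filter (fun j => adjB 4 j = true) = {0, 1, 2, 3, 10} by decide +kernel,
    Finset.sum_insert (by decide), Finset.sum_insert (by decide), Finset.sum_insert (by decide), Finset.sum_insert (by decide), Finset.sum_singleton] at e4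
  have e5 := h 5
  rw [redB, show Finset.univ.filter (fun j => adjB 5 j = true) = {0, 1, 2, 3, 11} by decide +kernel,
    Finset.sum_insert (by decide), Finset.sum_insert (by decide), Finset.sum_insert (by decide), Finset.sum_insert (by decide), Finset.sum_singleton] at e5
  have e6 := h 6
  rw [redB, show Finset.univ.filter (fun j => adjB 6 j = true) = {7, 8, 9, 10, 11} by decide +kernel,
    Finset.sum_insert (by decide), Finset.sum_insert (by decide), Finset.sum_insert (by decide), Finset.sum_insert (by decide), Finset.sum_singleton] at e6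
  have e7 := h 7
  rw [redB, show Finset.univ.filter (fun j => adjB 7 j = true) = {6, 8, 9, 10, 11} by decide +kernel,
    Finset.sum_insert (by decide), Finset.sum_insert (by decide), Finset.sum_insert (by decide), Finset.sum_insert (by decide), Finset.sum_singleton] at e7
  have e8 := h 8
  rw [redB, show Finset.univ.filter (fun j => adjB 8 j = true) = {2, 6, 7, 10, 11} by decide +kernel,
    Finset.sum_insert (by decide), Finset.sum_insert (by decide), Finset.sum_insert (by decide), Finset.sum_insert (by decide), Finset.sum_singleton] at e8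
  have e9 := h 9
  rw [redB, show Finset.univ.filter (fun j => adjB 9 j = true) = {3, 6, 7, 10, 11} by decide +kernel,
    Finset.sum_insert (by decide), Finset.sum_insert (by decide), Finset.sum_insert (by decide), Finset.sum_insert (by decide), Finset.sum_singleton] at e9
  have e10 := h 10
  rw [redB, show Finset.univ.filter (fun j => adjB 10 j = true) = {4, 6, 7, 8, 9} by decide +kernel,
    Finset.sum_insert (by decide), Finset.sum_insert (by decide), Finset.sum_insert (by decide), Finset.sum_insert (by decide), Finset.sum_singleton] at e10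
  have e11 := h 11
  rw [redB, show Finset.univ.filter (fun j => adjB 11 j = true) = {5, 6, 7, 8, 9} by decide +kernel,
    Finset.sum_insert (by decide), Finset.sum_insert (by decide), Finset.sum_insert (by decide), Finset.sum_insert (by decide), Finset.sum_singleton] at e11
  have k0 : (μ + 1) * (μ - 1) * (μ + 3) * (μ ^ 2 - 2 * μ - 7) * x 0 = 128 * (x 0 + x 1 + x 2 + x 3 + x 4 + x 5 + x 6 + x 7 + x 8 + x 9 + x 10 + x 11) := by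
    linear_combination (-((40) * μ ^ 0 + (-1) * μ ^ 1 + (-9) * μ ^ 2 + (1) * μ ^ 3 + (1) * μ ^ 4)) * e0 + (-((19) * μ ^ 0 + (7) * μ ^ 1 + (5) * μ ^ 2 + (1) * μ ^ 3)) * e1 + (-((22) * μ ^ 0 + (5) * μ ^ 1 + (4) * μ ^ 2 + (1) * μ ^ 3)) * e2 + (-((22) * μ ^ 0 + (5) * μ ^ 1 + (4) * μ ^ 2 + (1) * μ ^ 3)) * e3 + (-((22) * μ ^ 0 + (5) * μ ^ 1 + (4) * μ ^ 2 + (1) * μ ^ 3)) * e4 + (-((22) * μ ^ 0 + (5) * μ ^ 1 + (4) * μ ^ 2 + (1) * μ ^ 3)) * e5 + (-((28) * μ ^ 0 + (4) * μ ^ 1)) * e6 + (-((28) * μ ^ 0 + (4) * μ ^ 1)) * e7 + (-((25) * μ ^ 0 + (6) * μ ^ 1 + (1) * μ ^ 2)) * e8 + (-((25) * μ ^ 0 + (6) * μ ^ 1 + (1) * μ ^ 2)) * e9 + (-((25) * μ ^ 0 + (6) * μ ^ 1 + (1) * μ ^ 2)) * e10 + (-((25) * μ ^ 0 + (6) * μ ^ 1 + (1) * μ ^ 2)) * e11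
  have k1 : (μ + 1) * (μ - 1) * (μ + 3) * (μ ^ 2 - 2 * μ - 7) * x 1 = 128 * (x 0 + x 1 + x 2 + x 3 + x 4 + x 5 + x 6 + x 7 + x 8 + x 9 + x 10 + x 11) := by
    linear_combination (-((19) * μ ^ 0 + (7) * μ ^ 1 + (5) * μ ^ 2 + (1) * μ ^ 3)) * e0 + (-((40) * μ ^ 0 + (-1) * μ ^ 1 + (-9) * μ ^ 2 + (1) * μ ^ 3 + (1) * μ ^ 4)) * e1 + (-((22) * μ ^ 0 + (5) * μ ^ 1 + (4) * μ ^ 2 + (1) * μ ^ 3)) * e2 + (-((22) * μ ^ 0 + (5) * μ ^ 1 + (4) * μ ^ 2 + (1) * μ ^ 3)) * e3 + (-((22) * μ ^ 0 + (5) * μ ^ 1 + (4) * μ ^ 2 + (1) * μ ^ 3)) * e4 + (-((22) * μ ^ 0 + (5) * μ ^ 1 + (4) * μ ^ 2 + (1) * μ ^ 3)) * e5 + (-((28) * μ ^ 0 + (4) * μ ^ 1)) * e6 + (-((28) * μ ^ 0 + (4) * μ ^ 1)) * e7 + (-((25) * μ ^ 0 + (6) * μ ^ 1 + (1) * μ ^ 2)) * e8 + (-((25) * μ ^ 0 + (6) * μ ^ 1 + (1) * μ ^ 2)) * e9 + (-((25) * μ ^ 0 + (6) * μ ^ 1 + (1) * μ ^ 2))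 * e10 + (-((25) * μ ^ 0 + (6) * μ ^ 1 + (1) * μ ^ 2)) * e11
  have k2 : (μ + 1) * (μ - 1) * (μ + 3) * (μ ^ 2 - 2 * μ - 7) * x 2 = 128 * (x 0 + x 1 + x 2 + x 3 + x 4 + x 5 + x 6 + x 7 + x 8 + x 9 + x 10 + x 11) := by
    linear_combination (-((22) * μ ^ 0 + (5) * μ ^ 1 + (4) * μ ^ 2 + (1) * μ ^ 3)) * e0 + (-((22) * μ ^ 0 + (5) * μ ^ 1 + (4) * μ ^ 2 + (1) * μ ^ 3)) * e1 + (-((30) * μ ^ 0 + (-7) * μ ^ 1 + (-9) * μ ^ 2 + (1) * μ ^ 3 + (1) * μ ^ 4)) * e2 + (-((30) * μ ^ 0 + (14) * μ ^ 1 + (4) * μ ^ 2)) * e3 + (-((23) * μ ^ 0 + (5) * μ ^ 1 + (3) * μ ^ 2 + (1) * μ ^ 3)) * e4 + (-((23) * μ ^ 0 + (5) * μ ^ 1 + (3) * μ ^ 2 + (1) * μ ^ 3)) * e5 + (-((25) * μ ^ 0 + (6) * μ ^ 1 + (1) * μ ^ 2)) * e6 + (-((25) * μ ^ 0 + (6) * μ ^ 1 + (1) * μ ^ 2)) * e7 + (-((17) * μ ^ 0 + (-3) * μ ^ 1 + (1) * μ ^ 2 + (1) * μ ^ 3)) * e8 + (-((38) *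 μ ^ 0 + (10) * μ ^ 1)) * e9 + (-((24) * μ ^ 0 + (6) * μ ^ 1 + (2) * μ ^ 2)) * e10 + (-((24) * μ ^ 0 + (6) * μ ^ 1 + (2) * μ ^ 2)) * e11
  have k3 : (μ + 1) * (μ - 1) * (μ + 3) * (μ ^ 2 - 2 * μ - 7) * x 3 = 128 * (x 0 + x 1 + x 2 + x 3 + x 4 + x 5 + x 6 + x 7 + x 8 + x 9 + x 10 + x 11) := by
    linear_combination (-((22) * μ ^ 0 + (5) * μ ^ 1 + (4) * μ ^ 2 + (1) * μ ^ 3)) * e0 + (-((22) * μ ^ 0 + (5) * μ ^ 1 + (4) * μ ^ 2 + (1) * μ ^ 3)) * e1 + (-((30) * μ ^ 0 + (14) * μ ^ 1 + (4) * μ ^ 2)) * e2 + (-((30) * μ ^ 0 + (-7) * μ ^ 1 + (-9) * μ ^ 2 + (1) * μ ^ 3 + (1) * μ ^ 4)) * e3 + (-((23) * μ ^ 0 + (5) * μ ^ 1 + (3) * μ ^ 2 + (1) * μ ^ 3)) * e4 + (-((23) * μ ^ 0 + (5) * μ ^ 1 + (3) * μ ^ 2 + (1) * μ ^ 3)) * e5 + (-((25) * μ ^ 0 + (6) * μ ^ 1 + (1) * μ ^ 2)) * e6 + (-((25) * μ ^ 0 + (6) * μ ^ 1 + (1) * μ ^ 2)) * e7 + (-((38)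 * μ ^ 0 + (10) * μ ^ 1)) * e8 + (-((17) * μ ^ 0 + (-3) * μ ^ 1 + (1) * μ ^ 2 + (1) * μ ^ 3)) * e9 + (-((24) * μ ^ 0 + (6) * μ ^ 1 + (2) * μ ^ 2)) * e10 + (-((24) * μ ^ 0 + (6) * μ ^ 1 + (2) * μ ^ 2)) * e11
  have k4 : (μ + 1) * (μ - 1) * (μ + 3) * (μ ^ 2 - 2 * μ - 7) * x 4 = 128 * (x 0 + x 1 + x 2 + x 3 + x 4 + x 5 + x 6 + x 7 + x 8 + x 9 + x 10 + x 11) := by
    linear_combination (-((22) * μ ^ 0 + (5) * μ ^ 1 + (4) * μ ^ 2 + (1) * μ ^ 3)) * e0 + (-((22) * μ ^ 0 + (5) * μ ^ 1 + (4) * μ ^ 2 + (1) * μ ^ 3)) * e1 + (-((23) * μ ^ 0 + (5) * μ ^ 1 + (3) * μ ^ 2 + (1) * μ ^ 3)) * e2 + (-((23) * μ ^ 0 + (5) * μ ^ 1 + (3) * μ ^ 2 + (1) * μ ^ 3)) * e3 + (-((30) * μ ^ 0 + (-7) * μ ^ 1 + (-9) * μ ^ 2 + (1) * μ ^ 3 + (1) * μ ^ 4)) * e4 + (-((30) * μ ^ 0 + (14) * μ ^ 1 + (4) * μ ^ 2)) * e5 + (-((25) * μ ^ 0 + (6) * μ ^ 1 + (1) *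 μ ^ 2)) * e6 + (-((25) * μ ^ 0 + (6) * μ ^ 1 + (1) * μ ^ 2)) * e7 + (-((24) * μ ^ 0 + (6) * μ ^ 1 + (2) * μ ^ 2)) * e8 + (-((24) * μ ^ 0 + (6) * μ ^ 1 + (2) * μ ^ 2)) * e9 + (-((17) * μ ^ 0 + (-3) * μ ^ 1 + (1) * μ ^ 2 + (1) * μ ^ 3)) * e10 + (-((38) * μ ^ 0 + (10) * μ ^ 1)) * e11
  have k5 : (μ + 1) * (μ - 1) * (μ + 3) * (μ ^ 2 - 2 * μ - 7) * x 5 = 128 * (x 0 + x 1 + x 2 + x 3 + x 4 + x 5 + x 6 + x 7 + x 8 + x 9 + x 10 + x 11) := by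
    linear_combination (-((22) * μ ^ 0 + (5) * μ ^ 1 + (4) * μ ^ 2 + (1) * μ ^ 3)) * e0 + (-((22) * μ ^ 0 + (5) * μ ^ 1 + (4) * μ ^ 2 + (1) * μ ^ 3)) * e1 + (-((23) * μ ^ 0 + (5) * μ ^ 1 + (3) * μ ^ 2 + (1) * μ ^ 3)) * e2 + (-((23) * μ ^ 0 + (5) * μ ^ 1 + (3) * μ ^ 2 + (1) * μ ^ 3)) * e3 + (-((30) * μ ^ 0 + (14) * μ ^ 1 + (4) * μ ^ 2)) * e4 + (-((30) * μ ^ 0 + (-7) * μ ^ 1 + (-9) * μ ^ 2 + (1) * μ ^ 3 + (1) * μ ^ 4)) * e5 + (-((25) * μ ^ 0 + (6) * μ ^ 1 + (1) * μ ^ 2)) * e6 + (-((25) * μ ^ 0 + (6) * μ ^ 1 + (1) * μ ^ 2)) * e7 + (-((24) * μ ^ 0 + (6) * μ ^ 1 + (2) * μ ^ 2)) * e8 + (-((24) * μ ^ 0 + (6) * μ ^ 1 + (2) * μ ^ 2)) * e9 + (-((38) * μ ^ 0 + (10) * μ ^ 1)) * e10 + (-((17) * μ ^ 0 + (-3) * μ ^ 1 + (1) * μ ^ 2 + (1) * μ ^ 3)) * e11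
  have k6 : (μ + 1) * (μ - 1) * (μ + 3) * (μ ^ 2 - 2 * μ - 7) * x 6 = 128 * (x 0 + x 1 + x 2 + x 3 + x 4 + x 5 + x 6 + x 7 + x 8 + x 9 + x 10 + x 11) := by
    linear_combination (-((28) * μ ^ 0 + (4) * μ ^ 1)) * e0 + (-((28) * μ ^ 0 + (4) * μ ^ 1)) * e1 + (-((25) * μ ^ 0 + (6) * μ ^ 1 + (1) * μ ^ 2)) * e2 + (-((25) * μ ^ 0 + (6) * μ ^ 1 + (1) * μ ^ 2)) * e3 + (-((25) * μ ^ 0 + (6) * μ ^ 1 + (1) * μ ^ 2)) * e4 + (-((25) * μ ^ 0 + (6) * μ ^ 1 + (1) * μ ^ 2)) * e5 + (-((40) * μ ^ 0 + (-1) * μ ^ 1 + (-9) * μ ^ 2 + (1) * μ ^ 3 + (1) * μ ^ 4)) * e6 + (-((19) * μ ^ 0 + (7) * μ ^ 1 + (5) * μ ^ 2 + (1) * μ ^ 3)) * e7 + (-((22) * μ ^ 0 + (5) * μ ^ 1 + (4) * μ ^ 2 + (1) * μ ^ 3)) * e8 + (-((22) * μ ^ 0 + (5) * μ ^ 1 + (4) * μ ^ 2 + (1) * μ ^ 3)) * e9 + (-((22) * μ ^ 0 + (5) * μ ^ 1 + (4) * μ ^ 2 + (1) * μ ^ 3)) * e10 + (-((22)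 * μ ^ 0 + (5) * μ ^ 1 + (4) * μ ^ 2 + (1) * μ ^ 3)) * e11
  have k7 : (μ + 1) * (μ - 1) * (μ + 3) * (μ ^ 2 - 2 * μ - 7) * x 7 = 128 * (x 0 + x 1 + x 2 + x 3 + x 4 + x 5 + x 6 + x 7 + x 8 + x 9 + x 10 + x 11) := by
    linear_combination (-((28) * μ ^ 0 + (4) * μ ^ 1)) * e0 + (-((28) * μ ^ 0 + (4) * μ ^ 1)) * e1 + (-((25) * μ ^ 0 + (6) * μ ^ 1 + (1) * μ ^ 2)) * e2 + (-((25) * μ ^ 0 + (6) * μ ^ 1 + (1) * μ ^ 2)) * e3 + (-((25) * μ ^ 0 + (6) * μ ^ 1 + (1) * μ ^ 2)) * e4 + (-((25) * μ ^ 0 + (6) * μ ^ 1 + (1) * μ ^ 2)) * e5 + (-((19) * μ ^ 0 + (7) * μ ^ 1 + (5) * μ ^ 2 + (1) * μ ^ 3)) * e6 + (-((40) * μ ^ 0 + (-1) * μ ^ 1 + (-9) * μ ^ 2 + (1) * μ ^ 3 + (1) * μ ^ 4)) * e7 + (-((22) * μ ^ 0 + (5) * μ ^ 1 + (4) * μ ^ 2 + (1) * μ ^ 3)) * e8 + (-((22) * μ ^ 0 + (5) * μ ^ 1 + (4) * μ ^ 2 + (1) * μ ^ 3)) * e9 + (-((22) * μ ^ 0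 + (5) * μ ^ 1 + (4) * μ ^ 2 + (1) * μ ^ 3)) * e10 + (-((22) * μ ^ 0 + (5) * μ ^ 1 + (4) * μ ^ 2 + (1) * μ ^ 3)) * e11
  have k8 : (μ + 1) * (μ - 1) * (μ + 3) * (μ ^ 2 - 2 * μ - 7) * x 8 = 128 * (x 0 + x 1 + x 2 + x 3 + x 4 + x 5 + x 6 + x 7 + x 8 + x 9 + x 10 + x 11) := by
    linear_combination (-((25) * μ ^ 0 + (6) * μ ^ 1 + (1) * μ ^ 2)) * e0 + (-((25) * μ ^ 0 + (6) * μ ^ 1 + (1) * μ ^ 2)) * e1 + (-((17) * μ ^ 0 + (-3) * μ ^ 1 + (1) * μ ^ 2 + (1) * μ ^ 3)) * e2 + (-((38) * μ ^ 0 + (10) * μ ^ 1)) * e3 + (-((24) * μ ^ 0 + (6) * μ ^ 1 + (2) * μ ^ 2)) * e4 + (-((24) * μ ^ 0 + (6) * μ ^ 1 + (2) * μ ^ 2)) * e5 + (-((22) * μ ^ 0 + (5) * μ ^ 1 + (4) * μ ^ 2 + (1) * μ ^ 3)) * e6 + (-((22) * μ ^ 0 + (5) * μ ^ 1 + (4) * μ ^ 2 + (1) * μ ^ 3)) * e7 + (-((30) * μ ^ 0 + (-7) * μ ^ 1 + (-9) * μ ^ 2 + (1) * μ ^ 3 + (1) * μ ^ 4))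 * e8 + (-((30) * μ ^ 0 + (14) * μ ^ 1 + (4) * μ ^ 2)) * e9 + (-((23) * μ ^ 0 + (5) * μ ^ 1 + (3) * μ ^ 2 + (1) * μ ^ 3)) * e10 + (-((23) * μ ^ 0 + (5) * μ ^ 1 + (3) * μ ^ 2 + (1) * μ ^ 3)) * e11
  have k9 : (μ + 1) * (μ - 1) * (μ + 3) * (μ ^ 2 - 2 * μ - 7) * x 9 = 128 * (x 0 + x 1 + x 2 + x 3 + x 4 + x 5 + x 6 + x 7 + x 8 + x 9 + x 10 + x 11) := by
    linear_combination (-((25) * μ ^ 0 + (6) * μ ^ 1 + (1) * μ ^ 2)) * e0 + (-((25) * μ ^ 0 + (6) * μ ^ 1 + (1) * μ ^ 2)) * e1 + (-((38) * μ ^ 0 + (10) * μ ^ 1)) * e2 + (-((17) * μ ^ 0 + (-3) * μ ^ 1 + (1) * μ ^ 2 + (1) * μ ^ 3)) * e3 + (-((24) * μ ^ 0 + (6) * μ ^ 1 + (2) * μ ^ 2)) * e4 + (-((24) * μ ^ 0 + (6) * μ ^ 1 + (2) * μ ^ 2)) * e5 + (-((22) * μ ^ 0 + (5) * μ ^ 1 + (4) * μ ^ 2 + (1) * μ ^ 3)) * e6 + (-((22) * μ ^ 0 + (5) * μ ^ 1 + (4) * μ ^ 2 + (1) * μ ^ 3)) * e7 +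 (-((30) * μ ^ 0 + (14) * μ ^ 1 + (4) * μ ^ 2)) * e8 + (-((30) * μ ^ 0 + (-7) * μ ^ 1 + (-9) * μ ^ 2 + (1) * μ ^ 3 + (1) * μ ^ 4)) * e9 + (-((23) * μ ^ 0 + (5) * μ ^ 1 + (3) * μ ^ 2 + (1) * μ ^ 3)) * e10 + (-((23) * μ ^ 0 + (5) * μ ^ 1 + (3) * μ ^ 2 + (1) * μ ^ 3)) * e11
  have k10 : (μ + 1) * (μ - 1) * (μ + 3) * (μ ^ 2 - 2 * μ - 7) * x 10 = 128 * (x 0 + x 1 + x 2 + x 3 + x 4 + x 5 + x 6 + x 7 + x 8 + x 9 + x 10 + x 11) := by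
    linear_combination (-((25) * μ ^ 0 + (6) * μ ^ 1 + (1) * μ ^ 2)) * e0 + (-((25) * μ ^ 0 + (6) * μ ^ 1 + (1) * μ ^ 2)) * e1 + (-((24) * μ ^ 0 + (6) * μ ^ 1 + (2) * μ ^ 2)) * e2 + (-((24) * μ ^ 0 + (6) * μ ^ 1 + (2) * μ ^ 2)) * e3 + (-((17) * μ ^ 0 + (-3) * μ ^ 1 + (1) * μ ^ 2 + (1) * μ ^ 3)) * e4 + (-((38) * μ ^ 0 + (10) * μ ^ 1)) * e5 + (-((22) * μ ^ 0 + (5) * μ ^ 1 + (4) * μ ^ 2 + (1) * μ ^ 3)) * e6 + (-((22) * μ ^ 0 + (5) * μ ^ 1 + (4) * μ ^ 2 + (1) * μ ^ 3)) * e7 + (-((23) * μ ^ 0 + (5) * μ ^ 1 + (3) * μ ^ 2 + (1) * μ ^ 3)) * e8 + (-((23) * μ ^ 0 + (5) * μ ^ 1 + (3) * μ ^ 2 + (1) * μ ^ 3)) * e9 + (-((30) * μ ^ 0 + (-7) * μ ^ 1 + (-9) * μ ^ 2 + (1) * μ ^ 3 + (1) * μ ^ 4)) * e10 + (-((30) * μ ^ 0 + (14) * μ ^ 1 + (4) * μ ^ 2)) * e11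
  have k11 : (μ + 1) * (μ - 1) * (μ + 3) * (μ ^ 2 - 2 * μ - 7) * x 11 = 128 * (x 0 + x 1 + x 2 + x 3 + x 4 + x 5 + x 6 + x 7 + x 8 + x 9 + x 10 + x 11) := by
    linear_combination (-((25) * μ ^ 0 + (6) * μ ^ 1 + (1) * μ ^ 2)) * e0 + (-((25) * μ ^ 0 + (6) * μ ^ 1 + (1) * μ ^ 2)) * e1 + (-((24) * μ ^ 0 + (6) * μ ^ 1 + (2) * μ ^ 2)) * e2 + (-((24) * μ ^ 0 + (6) * μ ^ 1 + (2) * μ ^ 2)) * e3 + (-((38) * μ ^ 0 + (10) * μ ^ 1)) * e4 + (-((17) * μ ^ 0 + (-3) * μ ^ 1 + (1) * μ ^ 2 + (1) * μ ^ 3)) * e5 + (-((22) * μ ^ 0 + (5) * μ ^ 1 + (4) * μ ^ 2 + (1) * μ ^ 3)) * e6 + (-((22) * μ ^ 0 + (5) * μ ^ 1 + (4) * μ ^ 2 + (1) * μ ^ 3)) * e7 + (-((23) * μ ^ 0 + (5) * μ ^ 1 + (3) * μ ^ 2 + (1) * μ ^ 3)) * e8 + (-((23) * μ ^ 0 + (5) * μ ^ 1 + (3) * μ ^ 2 + (1) * μ ^ 3)) * e9 + (-((30) * μ ^ 0 + (14) * μ ^ 1 + (4) * μ ^ 2)) * e10 + (-((30)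 * μ ^ 0 + (-7) * μ ^ 1 + (-9) * μ ^ 2 + (1) * μ ^ 3 + (1) * μ ^ 4)) * e11
  have k : ∀ i, (μ + 1) * (μ - 1) * (μ + 3) * (μ ^ 2 - 2 * μ - 7) * x i = 128 * (x 0 + x 1 + x 2 + x 3 + x 4 + x 5 + x 6 + x 7 + x 8 + x 9 + x 10 + x 11) := by
    intro i
    fin_cases i
    exacts [k0, k1, k2, k3, k4, k5, k6, k7, k8, k9, k10, k11]
  have hs : (μ - 5) * (x 0 + x 1 + x 2 + x 3 + x 4 + x 5 + x 6 + x 7 + x 8 + x 9 + x 10 + x 11) = 0 := by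
    linear_combination (-1) * e0 + (-1) * e1 + (-1) * e2 + (-1) * e3 + (-1) * e4 + (-1) * e5 + (-1) * e6 + (-1) * e7 + (-1) * e8 + (-1) * e9 + (-1) * e10 + (-1) * e11
  rcases mul_eq_zero.1 hs with h0 | h0
  · left
    have hm : μ = 5 := by linarith
    refine ⟨by rw [hm]; norm_num, x 0, fun i => ?_⟩
    have a := k i
    have b := k 0
    rw [hm] at a b
    linarith
  · right
    obtain ⟨i, hi⟩ := Function.ne_iff.1 hx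
    have a := k i
    rw [h0, mul_zero] at a
    have hp := (mul_eq_zero.1 a).resolve_right hi
    exact rootB μ hp

lemma codeB (𝒢 : Finset (SimpleGraph (Fin 12))) (h : IsCode HB 𝒢) : 𝒢.card ≤ 16 :=
  bound HB (fun i => decide (i.val < 6)) ![2, 3, 4, 5] ![8, 9, 10, 11] 0 11 (by decide)
    (by decide +kernel) 𝒢 h

theorem result :
    (∃ H : SimpleGraph (Fin 10), (∀ v, (H.neighborSet v).ncard = 4) ∧ Ramanujan H 4 ∧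
      ∀ 𝒢, IsCode H 𝒢 → 𝒢.card ≤ 4) ∧
    (∃ H : SimpleGraph (Fin 12), (∀ v, (H.neighborSet v).ncard = 5) ∧ Ramanujan H 5 ∧
      ∀ 𝒢, IsCode H 𝒢 → 𝒢.card ≤ 16) :=
  ⟨⟨HA, regA, ramA, codeA⟩, ⟨HB, regB, ramB, codeB⟩⟩

end Pool.Agent.Results.MP_7d4bc7_co.Counter
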